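import Pool.Agent.N728.QU.Def

set_option autoImplicit false

/-! # Project QV (helper728): `τ (f(m) - f(h)) + c` for all quadratic polynomials `f = a X² + b X`, uniformly in `c`.

`f(m) - f(h) = (m - h) (a (m + h) + b)`: for `m > h`, `u = m - h`, `v = a u + (2 a h + b)`, `σ = τ`; for `m < h`,
`u = h - m`, `v = - a u + (2 a h + b)`, `σ = -τ`. -/

namespace Pool.Agent.N728.QU

open Finset MeasureTheory Pool.Agent.N728.QL Pool.Agent.N728.QG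

noncomputable section

/-- the polynomial -/
def Vg (a b τ c : ℤ) (h m : ℕ) : ℤ := τ * ((a * (m : ℤ) ^ 2 + b * m) - (a * (h : ℤ) ^ 2 + b * h)) + c

/-- the product over the primes up to `z` -/
def Sqg (a b τ c : ℤ) (h z : ℕ) : ℝ := ∏ p ∈ (Ioc 0 z).filter Nat.Prime,
  (1 - (((range p).filter (fun m : ℕ => (p : ℤ) ∣ Vg a b τ c h m)).card : ℝ) / p) / (1 - 1 / (p : ℝ))

/-- no local obstruction -/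
def Adg (a b c : ℤ) : Prop :=
  (∀ p : ℕ, p.Prime → (p : ℤ) ∣ a → (p : ℤ) ∣ b → ¬ (p : ℤ) ∣ c) ∧ ((2 : ℤ) ∣ a + b → ¬ (2 : ℤ) ∣ c)

/-- LOCg. -/
def S_LOCg (a b : ℤ) : Prop := ∀ z : ℕ, ∃ C : ℝ, 0 < C ∧ ∀ (τ c : ℤ) (h M1 M2 : ℕ), M1 ≤ M2 →
  |∑ m ∈ Ioc M1 M2, lz z (Vg a b τ c h m) - ((M2 : ℝ) - M1) * Sqg a b τ c h z| ≤ C

/-- AVSg. -/
def S_AVSg (a b : ℤ) : Prop := ∃ C : ℝ, 0 < C ∧ ∀ z : ℕ, ∃ H0 : ℕ, ∀ H : ℕ, H0 ≤ H → ∀ c τ : ℤ, c ≠ 0 →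
  (τ = 1 ∨ τ = -1) → ∑ h ∈ Icc 1 H, Sqg a b τ c h z ≤ C * H

/-- TLSg. -/
def S_TLSg (s0 : ℕ) (a b : ℤ) : Prop := ∀ ε : ℝ, 0 < ε → ∃ z0 : ℕ, ∀ z : ℕ, z0 ≤ z → ∀ A : ℕ, ∃ H0 : ℕ, ∀ H : ℕ,
  H0 ≤ H → ∀ (Z : ℕ) (c τ : ℤ), Tame s0 c → (τ = 1 ∨ τ = -1) → z ≤ Z → (Z : ℝ) ≤ Real.log H ^ A →
  (((Icc 1 H).filter (fun h : ℕ => ε < |Sqg a b τ c h Z - Sqg a b τ c h z|)).card : ℝ) ≤ ε * H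

/-- LWBg. The product is bounded below for almost all `h`. -/
def S_LWBg (s0 : ℕ) (a b : ℤ) : Prop := ∀ ε : ℝ, 0 < ε → ∃ κ : ℝ, 0 < κ ∧ ∀ z : ℕ, ∃ H0 : ℕ, ∀ H : ℕ, H0 ≤ H →
  ∀ c τ : ℤ, Tame s0 c → Adg a b c → (τ = 1 ∨ τ = -1) →
  (((Icc 1 H).filter (fun h : ℕ => Sqg a b τ c h z < κ)).card : ℝ) ≤ ε * H

/-- BLg. The primes with logarithmic weights, on a block of `h`. -/
def S_BLg (s0 : ℕ) (a b : ℤ) : Prop := ∀ (K : ℕ) (ε : ℝ), 1 ≤ K → 0 < ε → ∃ z0 : ℕ, ∀ z : ℕ, z0 ≤ z → ∃ H0 : ℕ,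
  ∀ H : ℕ, H0 ≤ H → ∀ (M : ℕ) (c τ : ℤ), Tame s0 c → (τ = 1 ∨ τ = -1) → c.natAbs ≤ K * H ^ 2 → M ≤ K * H →
  ∑ h ∈ Ioc H (2 * H), |∑ m ∈ Icc 1 M, lp (Vg a b τ c h m) -
      Sqg a b τ c h z * (((Icc 1 M).filter (fun m : ℕ => 2 ≤ Vg a b τ c h m)).card : ℝ)| ≤ ε * (H : ℝ) ^ 2

/-- number of prime values -/
def cntg (a b τ c : ℤ) (h M : ℕ) : ℕ := ((Icc 1 M).filter (fun m : ℕ => (Vg a b τ c h m).toNat.Prime)).card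

/-- The final theorem. -/
def FinalG (s0 : ℕ) (a b : ℤ) : Prop := ∀ ε : ℝ, 0 < ε → ∃ κ : ℝ, 0 < κ ∧ ∀ (δ : ℝ) (K : ℕ), 0 < δ → ∃ Z0 : ℕ,
  ∀ A : ℕ, ∃ H0 : ℕ, ∀ H : ℕ, H0 ≤ H → ∀ (M Z : ℕ) (c τ : ℤ), Tame s0 c → Adg a b c → (τ = 1 ∨ τ = -1) →
  c.natAbs ≤ K * H ^ 2 → M ≤ K * H → Z0 ≤ Z → (Z : ℝ) ≤ Real.log H ^ A →
  (((Icc 1 H).filter (fun h : ℕ => ¬ (κ ≤ Sqg a b τ c h Z ∧ |(cntg a b τ c h M : ℝ) -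
      Sqg a b τ c h Z * ∑ m ∈ (Icc 1 M).filter (fun m : ℕ => 2 ≤ Vg a b τ c h m),
        1 / Real.log ((Vg a b τ c h m : ℤ) : ℝ)| ≤ δ * (H / Real.log H)))).card : ℝ) ≤ ε * H

end

end Pool.Agent.N728.QU
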