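import Pool.Agent.N728.QU.DefG

set_option autoImplicit false

/-! # Project QV (helper728): the final theorem for all `M ≤ K H` simultaneously. -/

namespace Pool.Agent.N728.QU

open Finset

noncomputable section

open Classical in
/-- The final theorem, for all `M ≤ K H` simultaneously. -/
def FinalGU (s0 : ℕ) (a b : ℤ) : Prop := ∀ ε : ℝ, 0 < ε → ∃ κ : ℝ, 0 < κ ∧ ∀ (δ : ℝ) (K : ℕ), 0 < δ → ∃ Z0 : ℕ,
  ∀ A : ℕ, ∃ H0 : ℕ, ∀ H : ℕ, H0 ≤ H → ∀ (Z : ℕ) (c τ : ℤ), Tame s0 c → Adg a b c → (τ = 1 ∨ τ = -1) →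
  c.natAbs ≤ K * H ^ 2 → Z0 ≤ Z → (Z : ℝ) ≤ Real.log H ^ A →
  (((Icc 1 H).filter (fun h : ℕ => ¬ (κ ≤ Sqg a b τ c h Z ∧ ∀ M : ℕ, M ≤ K * H → |(cntg a b τ c h M : ℝ) -
      Sqg a b τ c h Z * ∑ m ∈ (Icc 1 M).filter (fun m : ℕ => 2 ≤ Vg a b τ c h m),
        1 / Real.log ((Vg a b τ c h m : ℤ) : ℝ)| ≤ δ * (H / Real.log H)))).card : ℝ) ≤ ε * H

end

end Pool.Agent.N728.QU
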