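import Pool.Agent.N728.QG.Def2

set_option autoImplicit false

/-! # Project QU (helper728): uniformity in the constant term.

`τ (m² - h²) + c = σ u v + c`, for almost all `h ≤ H` and all integers `c` up to `K H²`: for `m > h`, `u = m - h`,
`v = u + 2 h`, `σ = τ`; for `m < h`, `u = h - m`, `v = 2 h - u`, `σ = -τ`. The case `τ = -1` is `c + h² = p + m²`. -/

namespace Pool.Agent.N728.QU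

open Finset MeasureTheory Pool.Agent.N728.QL Pool.Agent.N728.QG

noncomputable section

/-- `c` has few small prime factors beyond `s0` -/
def Tame (s0 : ℕ) (c : ℤ) : Prop := c ≠ 0 ∧ ∀ s : ℕ, s0 ≤ s →
  ∑ p ∈ c.natAbs.primeFactors.filter (fun p => s < p), 1 / (p : ℝ) ≤ 1 / √(s : ℝ)

/-- U0u. -/
def S_U0u : Prop := ∀ D : ℕ, 1 ≤ D → ∃ C : ℝ, 0 < C ∧ ∃ k B0 : ℕ, ∀ B : ℕ, B0 ≤ B → ∀ c : ℤ, c ≠ 0 →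
  c.natAbs ≤ B ^ 3 → ∀ z : ℕ, 2 ≤ z → z ^ k ≤ B → U0b C k B D (fun n => lz z ((n : ℤ) + c))

/-- U1u. -/
def S_U1u (s0 : ℕ) : Prop := ∀ D : ℕ, 1 ≤ D → ∃ C : ℝ, 0 < C ∧ ∃ k B0 : ℕ, ∀ B : ℕ, B0 ≤ B → ∀ c : ℤ, Tame s0 c →
  c.natAbs ≤ B ^ 3 → ∀ z : ℕ, 2 ≤ z → z ^ k ≤ B → U1b C k B D (fun n => lz z ((n : ℤ) + c))

/-- the truncated difference at `σ n + c` -/
def EPu (σ c : ℤ) (z B n : ℕ) : ℝ := if (B : ℤ) ≤ σ * n + c ∧ n ≤ B ^ 3 then EE z (σ * n + c) else 0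

/-- EEBu. The pointwise bound. -/
def S_EEBu : Prop := ∃ κ : ℝ, 1 ≤ κ ∧ ∀ k z : ℕ, 2 ≤ k → ∃ B0 : ℕ, ∀ B : ℕ, B0 ≤ B → ∀ c σ : ℤ,
  (σ = 1 ∨ σ = -1) → c.natAbs ≤ B ^ 3 → ∀ z1 : ℕ, z1 ^ k ≤ B → B < (z1 + 1) ^ k →
  2 ≤ z1 ∧ ∀ n : ℕ, |EPu σ c z B n| ≤ κ * k * NN (σ * c) z z1 n

/-! ### Stage A -/

/-- GVNu. Two applications of the Cauchy-Schwarz inequality, supports anywhere. -/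
def S_GVNu : Prop := ∀ (X Y N A A' : ℕ) (C C' a1 a2 : ℤ) (f : ℤ → ℤ → ℝ) (F1 F2 : ℤ → ℝ), 1 ≤ N →
  0 < A → 0 < A' → IsCoprime (A : ℤ) C → IsCoprime (A' : ℤ) C' → A ≤ X → A' ≤ X →
  (∀ x y : ℤ, ¬ (1 ≤ x ∧ x ≤ X ∧ 1 ≤ y ∧ y ≤ Y) → f x y = 0) → (∀ s, |F1 s| ≤ 1) → (∀ s, |F2 s| ≤ 1) →
  (∀ s : ℤ, ¬ (a1 < s ∧ s ≤ a1 + N) → F1 s = 0) → (∀ s : ℤ, ¬ (a2 < s ∧ s ≤ a2 + N) → F2 s = 0) →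
  (∑ x ∈ Icc (1 : ℤ) X, ∑ y ∈ Icc (1 : ℤ) Y, f x y * F1 (A * y - C * x) * F2 (A' * y - C' * x)) ^ 4 ≤
    (N : ℝ) ^ 3 * (3 * X / A) *
      ∑ t ∈ Icc (-((X / A : ℕ) : ℤ)) ((X / A : ℕ) : ℤ), ∑ r ∈ Icc (-((X / A' : ℕ) : ℤ)) ((X / A' : ℕ) : ℤ),
        |∑ x ∈ Icc (1 : ℤ) X, ∑ y ∈ Icc (1 : ℤ) Y, f x y * f (x + t * A) (y + t * C) *
          f (x + r * A') (y + r * C') * f (x + t * A + r * A') (y + t * C + r * C')|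

/-- FLBu. The fundamental lemma of the sieve for four forms, any `c`. -/
def S_FLBu : Prop := ∃ K : ℕ, 1 ≤ K ∧ ∀ (c : ℤ) (b w y z z1 M : ℕ) (x θ : Fin 4 → ℤ) (J1 J2 : ℤ),
  K ≤ b → K ≤ z → 2 ≤ w → w ≤ y → y ≤ z → z ≤ z1 → M ∣ PP w y → J1 ≤ J2 → Dl c M x θ ≠ 0 →
  (∀ p : ℕ, p.Prime → z < p → p ≤ z1 → (p : ℤ) ∣ c → ∀ i, ¬ (p : ℤ) ∣ x i) →
  |∑ t ∈ Ioc J1 J2, ∏ i, (rg w y (t + θ i) * dz z z1 (M * x i * (t + θ i) + c))| ≤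
    K * (VW 0 y)⁻¹ ^ 4 * ((J2 : ℝ) - J1) *
      (hq y (Dl c M x θ) ^ 2 * ((1 / 2 : ℝ) ^ b + 1 / z) + hq y (Dl c M x θ) * (hq z (Dl c M x θ) - 1)) +
    (z1 : ℝ) ^ (K * b)

/-- FUBu. The upper bound for four forms, any `c`, without a condition on the `x i`. -/
def S_FUBu : Prop := ∃ K : ℕ, 1 ≤ K ∧ ∀ (c : ℤ) (w y z z1 M : ℕ) (x θ : Fin 4 → ℤ) (J1 J2 : ℤ),
  K ≤ z → 2 ≤ w → w ≤ y → y ≤ z → z ≤ z1 → M ∣ PP w y → J1 ≤ J2 → Dl c M x θ ≠ 0 →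
  ∑ t ∈ Ioc J1 J2, ∏ i, (rg w y (t + θ i) * (lz z1 (M * x i * (t + θ i) + c) + lz z (M * x i * (t + θ i) + c))) ≤
    K * (VW 0 y)⁻¹ ^ 4 * ((J2 : ℝ) - J1) * hq y (Dl c M x θ) ^ 2 + (z1 : ℝ) ^ K

open Classical in
/-- AV1u. The parallelograms whose discriminant is divisible by `d`, or zero; any `c ≠ 0`. -/
def S_AV1u : Prop := ∃ K : ℝ, 0 < K ∧ ∀ (c : ℤ) (M A A' : ℕ) (C C' : ℤ) (X R R' : ℕ), c ≠ 0 → C ≠ 0 → C' ≠ 0 →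
  1 ≤ M → 1 ≤ A → 1 ≤ A' → 1 ≤ X → 1 ≤ R → 1 ≤ R' →
  (∀ d : ℕ, Squarefree d → (∀ p : ℕ, p.Prime → p ∣ d → ¬ p ∣ M * A * A' ∧ ¬ (p : ℤ) ∣ C * C') →
    d ≤ X → d ≤ R → d ≤ R' →
    (∑ x ∈ Icc (1 : ℤ) X, ∑ t ∈ Icc (-(R : ℤ)) R, ∑ r ∈ Icc (-(R' : ℤ)) R',
      (if (d : ℤ) ∣ Dl c M (xs A A' x t r) (ts C C' t r) then (1 : ℝ) else 0)) ≤
      K * 20 ^ d.primeFactors.card / d * ((X : ℝ) * R * R')) ∧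
  (∑ x ∈ Icc (1 : ℤ) X, ∑ t ∈ Icc (-(R : ℤ)) R, ∑ r ∈ Icc (-(R' : ℤ)) R',
      (if Dl c M (xs A A' x t r) (ts C C' t r) = 0 then (1 : ℝ) else 0)) ≤
      K * ((R : ℝ) * R' + X * R' + X * R)

/-- AVGu. The average of `hq ^ 4` over the parallelograms, uniformly in `c`. -/
def S_AVGu : Prop := ∃ K : ℝ, 0 < K ∧ ∀ (s M A A' : ℕ) (C C' : ℤ), 2 ≤ s → 1 ≤ M → 1 ≤ A → 1 ≤ A' → C ≠ 0 →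
  C' ≠ 0 → (∀ p : ℕ, p.Prime → s < p → ¬ p ∣ M * A * A' ∧ ¬ (p : ℤ) ∣ C * C') →
  ∃ B0 : ℕ, ∀ B : ℕ, B0 ≤ B → ∀ (c : ℤ) (X R R' : ℕ), c ≠ 0 → c.natAbs ≤ B ^ 3 → B ≤ X ^ 4 → B ≤ R ^ 4 →
  B ≤ R' ^ 4 → X ≤ B ^ 2 → R ≤ B ^ 2 → R' ≤ B ^ 2 →
  (∑ x ∈ Icc (1 : ℤ) X, ∑ t ∈ Icc (-(R : ℤ)) R, ∑ r ∈ Icc (-(R' : ℤ)) R',
    (if Dl c M (xs A A' x t r) (ts C C' t r) = 0 then 0 else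
      hq s (Dl c M (xs A A' x t r) (ts C C' t r)) ^ 4 - 1) ≤ K / s * ((X : ℝ) * R * R')) ∧
  (∑ x ∈ Icc (1 : ℤ) X, ∑ t ∈ Icc (-(R : ℤ)) R, ∑ r ∈ Icc (-(R' : ℤ)) R',
    (if Dl c M (xs A A' x t r) (ts C C' t r) = 0 then (1 : ℝ) else 0) ≤ (X : ℝ) * R * R' / Real.log B ^ 10)

/-- BOXu. -/
def S_BOXu (s0 : ℕ) : Prop := ∃ K : ℕ, 1 ≤ K ∧ ∀ k w y M0 : ℕ, K ≤ k → 2 ≤ w → w ≤ y → 3 ≤ y →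
  ∀ ε : ℝ, 0 < ε → ∃ z0 : ℕ, ∀ z : ℕ, z0 ≤ z → ∃ B0 : ℕ, ∀ B : ℕ, B0 ≤ B →
  ∀ (z1 X Y M A A' : ℕ) (c C C' : ℤ), Tame s0 c → c.natAbs ≤ B ^ 3 → z ≤ z1 → z1 ^ k ≤ B → M ∣ PP w y →
  M ≤ M0 → A ∣ M → A' ∣ M → C ≠ 0 → C' ≠ 0 → C.natAbs ≤ M0 → C'.natAbs ≤ M0 →
  (∀ p : ℕ, p.Prime → y < p → ¬ (p : ℤ) ∣ C * C') → B ≤ X ^ 3 → X ≤ B ^ 2 → B ≤ Y ^ 3 → Y ≤ B ^ 2 →
  ∑ t ∈ Icc (-((X / A : ℕ) : ℤ)) ((X / A : ℕ) : ℤ), ∑ r ∈ Icc (-((X / A' : ℕ) : ℤ)) ((X / A' : ℕ) : ℤ),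
    |∑ x ∈ Icc (1 : ℤ) X, ∑ s ∈ Icc (1 : ℤ) Y, fB c w y z z1 X Y M x s * fB c w y z z1 X Y M (x + t * A) (s + t * C) *
      fB c w y z z1 X Y M (x + r * A') (s + r * C') * fB c w y z z1 X Y M (x + t * A + r * A') (s + t * C + r * C')| ≤
    (K * Real.log y ^ K * (2 : ℝ) ^ (-((k : ℝ) / K)) + ε) * ((X : ℝ) * Y * (X / A) * (X / A'))

/-- OFFu. The off-diagonal terms, `G = a X`. -/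
def S_OFFu (s0 : ℕ) (a : ℤ) : Prop := ∃ Kc : ℕ, 1 ≤ Kc ∧ ∀ k w y M0 K : ℕ, Kc ≤ k → Kc ≤ w → w ≤ y →
  ∀ ε : ℝ, 0 < ε → ∃ z0 : ℕ, ∀ z : ℕ, z0 ≤ z → ∃ B0 : ℕ, ∀ B : ℕ, B0 ≤ B →
  ∀ (z1 X Y M m m' : ℕ) (c : ℤ) (F : ℤ → ℝ), Tame s0 c → c.natAbs ≤ B ^ 3 → z ≤ z1 → z1 ^ k ≤ B → M ∣ PP w y →
  M ≤ M0 → m ∣ M → m' ∣ M → B ≤ X ^ 3 → X ≤ B ^ 2 → Y ≤ K * B → B ≤ M / m * Y → B ≤ M / m' * Y → Adm5 F B →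
  |∑ x ∈ Icc 1 X, ∑ t ∈ Icc 1 Y, rg w y x * rg w y t * dz z z1 ((M : ℤ) * x * t + c) *
      F (((M / m : ℕ) : ℤ) * t - a * (m * x)) * F (((M / m' : ℕ) : ℤ) * t - a * (m' * x))| ≤
    (Kc * Real.log y ^ Kc * (2 : ℝ) ^ (-((k : ℝ) / Kc)) + ε) * ((X : ℝ) * Y)

/-- AP2u. Stage A for the primes. -/
def S_AP2u (s0 : ℕ) (a : ℤ) : Prop := ∀ (K : ℕ) (ε : ℝ), 1 ≤ K → 0 < ε → ∃ z0 : ℕ, ∀ z : ℕ, z0 ≤ z →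
  ∃ q : ℕ, 1 ≤ q ∧ PP 0 z ∣ q ∧ (∀ p : ℕ, p.Prime → p ∣ q → p ≤ z) ∧ ∃ η : ℝ, 0 < η ∧ ∃ B0 : ℕ, ∀ B : ℕ, B0 ≤ B →
  ∀ (T H : ℕ) (c σ : ℤ) (F : ℤ → ℝ), Tame s0 c → c.natAbs ≤ B ^ 3 → (σ = 1 ∨ σ = -1) → B ≤ T ^ 2 → T ≤ K * B →
  Rge (Polynomial.C a * Polynomial.X) K B T → q ∣ H → 1 ≤ H → (H : ℝ) ≤ η * T → H ≤ B → Adm5 F B → ZeroMean F q H →
  |SE (Polynomial.C a * Polynomial.X) K (EPu σ c z B) B T F| ≤ ε * ((B : ℝ) * T)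

/-! ### Stages B and C -/

/-- B4Pu. -/
def S_B4Pu (s0 : ℕ) : Prop := ∃ (C1 : ℕ) (Kc : ℝ), 0 < Kc ∧ ∀ (K D q z : ℕ) (ε : ℝ), 1 ≤ K → 1 ≤ D → 1 ≤ q → 2 ≤ z →
  s0 ≤ z → 0 < ε → PP 0 z ∣ q → (∀ p : ℕ, p.Prime → p ∣ q → p ≤ z) → ∃ B0 : ℕ, ∀ B : ℕ, B0 ≤ B → ∀ (T : ℕ) (c σ : ℤ),
  Tame s0 c → (σ = 1 ∨ σ = -1) → B ≤ T ^ D → (T : ℝ) * Real.log B ^ C1 ≤ B →
  (c.natAbs : ℝ) ≤ K * ((B : ℝ) * T) * Real.log B ^ 2 →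
  H4 (Kc * K * (VW 0 z)⁻¹ / √(z : ℝ)) ε q K B T (EPu σ c z B)

/-- H4Pu. -/
def S_H4Pu (s0 : ℕ) : Prop := ∃ Kc : ℝ, 0 < Kc ∧ ∀ (K K3 D q z : ℕ) (ε : ℝ), 1 ≤ K → 1 ≤ D → 1 ≤ q → 2 ≤ z →
  s0 ≤ z → 0 < ε → PP 0 z ∣ q → (∀ p : ℕ, p.Prime → p ∣ q → p ≤ z) → ∃ B0 : ℕ, ∀ B : ℕ, B0 ≤ B → ∀ (T : ℕ) (c σ : ℤ),
  Tame s0 c → (σ = 1 ∨ σ = -1) → B ≤ T ^ D → T ≤ K3 * B → (c.natAbs : ℝ) ≤ K3 * ((B : ℝ) * T) * Real.log B →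
  H4 (Kc * K * (VW 0 z)⁻¹ / √(z : ℝ)) ε q K B T (EPu σ c z B)

/-- the difference at `σ n + c`, for `σ n + c ≥ B` -/
def Eu (σ c : ℤ) (z B : ℕ) (n : ℤ) : ℝ := if (B : ℤ) ≤ σ * n + c then EE z (σ * n + c) else 0

/-- MCu. The mean value theorem. -/
def S_MCu (s0 : ℕ) (a : ℤ) : Prop := ∀ (K : ℕ) (ε δ : ℝ), 1 ≤ K → 0 < ε → 0 < δ → ∃ z0 : ℕ, ∀ z : ℕ, z0 ≤ z →
  ∃ B0 : ℕ, ∀ B : ℕ, B0 ≤ B → ∀ (T : ℕ) (c σ : ℤ), Tame s0 c → (σ = 1 ∨ σ = -1) → c.natAbs ≤ K * B ^ 2 →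
  (B : ℝ) ≤ (T : ℝ) * Real.log B → T ≤ K * B → Rge (Polynomial.C a * Polynomial.X) K B T →
  ∑ b ∈ (Ioc B (4 * B)).filter (fun b : ℕ => (1 + δ) * (B : ℝ) ≤ (b : ℝ)),
    |∑ t ∈ Icc 1 T, Eu σ c z B ((t : ℤ) * (a * t + b))| ≤ ε * ((B : ℝ) * T)

/-! ### The polynomial `τ (m² - h²) + c` -/

/-- the polynomial -/
def V (τ c : ℤ) (h m : ℕ) : ℤ := τ * ((m : ℤ) ^ 2 - (h : ℤ) ^ 2) + c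

/-- the product over the primes up to `z` -/
def Sq (τ c : ℤ) (h z : ℕ) : ℝ := ∏ p ∈ (Ioc 0 z).filter Nat.Prime,
  (1 - (((range p).filter (fun m : ℕ => (p : ℤ) ∣ V τ c h m)).card : ℝ) / p) / (1 - 1 / (p : ℝ))

/-- LOCu. -/
def S_LOCu : Prop := ∀ z : ℕ, ∃ C : ℝ, 0 < C ∧ ∀ (τ c : ℤ) (h M1 M2 : ℕ), M1 ≤ M2 →
  |∑ m ∈ Ioc M1 M2, lz z (V τ c h m) - ((M2 : ℝ) - M1) * Sq τ c h z| ≤ C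

/-- AVSu. -/
def S_AVSu : Prop := ∃ C : ℝ, 0 < C ∧ ∀ z : ℕ, ∃ H0 : ℕ, ∀ H : ℕ, H0 ≤ H → ∀ c τ : ℤ, c ≠ 0 → (τ = 1 ∨ τ = -1) →
  ∑ h ∈ Icc 1 H, Sq τ c h z ≤ C * H

/-- TLSu. -/
def S_TLSu (s0 : ℕ) : Prop := ∀ ε : ℝ, 0 < ε → ∃ z0 : ℕ, ∀ z : ℕ, z0 ≤ z → ∀ A : ℕ, ∃ H0 : ℕ, ∀ H : ℕ, H0 ≤ H →
  ∀ (Z : ℕ) (c τ : ℤ), Tame s0 c → (τ = 1 ∨ τ = -1) → z ≤ Z → (Z : ℝ) ≤ Real.log H ^ A →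
  (((Icc 1 H).filter (fun h : ℕ => ε < |Sq τ c h Z - Sq τ c h z|)).card : ℝ) ≤ ε * H

/-- LWBu. The product is bounded below for almost all `h`. -/
def S_LWBu (s0 : ℕ) : Prop := ∀ ε : ℝ, 0 < ε → ∃ κ : ℝ, 0 < κ ∧ ∀ z : ℕ, ∃ H0 : ℕ, ∀ H : ℕ, H0 ≤ H →
  ∀ c τ : ℤ, Tame s0 c → (τ = 1 ∨ τ = -1) →
  (((Icc 1 H).filter (fun h : ℕ => Sq τ c h z < κ)).card : ℝ) ≤ ε * H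

/-- BLu. The primes with logarithmic weights, on a block of `h`. -/
def S_BLu (s0 : ℕ) : Prop := ∀ (K : ℕ) (ε : ℝ), 1 ≤ K → 0 < ε → ∃ z0 : ℕ, ∀ z : ℕ, z0 ≤ z → ∃ H0 : ℕ, ∀ H : ℕ,
  H0 ≤ H → ∀ (M : ℕ) (c τ : ℤ), Tame s0 c → (τ = 1 ∨ τ = -1) → c.natAbs ≤ K * H ^ 2 → M ≤ K * H →
  ∑ h ∈ Ioc H (2 * H), |∑ m ∈ Icc 1 M, lp (V τ c h m) -
      Sq τ c h z * (((Icc 1 M).filter (fun m : ℕ => 2 ≤ V τ c h m)).card : ℝ)| ≤ ε * (H : ℝ) ^ 2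

/-- number of prime values -/
def cntu (τ c : ℤ) (h M : ℕ) : ℕ := ((Icc 1 M).filter (fun m : ℕ => (V τ c h m).toNat.Prime)).card

/-- The final theorem. -/
def FinalU (s0 : ℕ) : Prop := ∀ ε : ℝ, 0 < ε → ∃ κ : ℝ, 0 < κ ∧ ∀ (δ : ℝ) (K : ℕ), 0 < δ → ∃ Z0 : ℕ, ∀ A : ℕ,
  ∃ H0 : ℕ, ∀ H : ℕ, H0 ≤ H → ∀ (M Z : ℕ) (c τ : ℤ), Tame s0 c → (τ = 1 ∨ τ = -1) → c.natAbs ≤ K * H ^ 2 →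
  M ≤ K * H → Z0 ≤ Z → (Z : ℝ) ≤ Real.log H ^ A →
  (((Icc 1 H).filter (fun h : ℕ => ¬ (κ ≤ Sq τ c h Z ∧ |(cntu τ c h M : ℝ) -
      Sq τ c h Z * ∑ m ∈ (Icc 1 M).filter (fun m : ℕ => 2 ≤ V τ c h m), 1 / Real.log ((V τ c h m : ℤ) : ℝ)| ≤
        δ * (H / Real.log H)))).card : ℝ) ≤ ε * H

end

end Pool.Agent.N728.QU
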