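import Pool.Agent.N728.QG.All2
import Pool.Agent.N728.QU.Def
import Pool.Agent.N49.QU.UPP
import Pool.Agent.N698.QU.EEB
import Pool.Agent.N543.QU.GVNu
import Pool.Agent.N488.QU.FLB
import Pool.Agent.N488.QU.AV1
import Pool.Agent.N701.QU.AVG
import Pool.Agent.N521.QU.Box
import Pool.Agent.N457.QU.OFF
import Pool.Agent.N300.QU.AP2
import Pool.Agent.N61.QU.B4P
import Pool.Agent.N650.QU.H4P
import Pool.Agent.N136.QU.MC
import Pool.Agent.N123.QU.SER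
import Pool.Agent.N765.QU.FIN
import Pool.Agent.N519.QU.BL

set_option autoImplicit false

/-! # Project QU: assembly -/

namespace Pool.Agent.N728.QU

open Pool.Agent.N728.QL Pool.Agent.N728.QG

theorem uU0 : S_U0u := Pool.Agent.N49.QU.t_U0u Pool.Agent.N136.QL.t_FLC aMER
theorem uU1 : ∀ s0, S_U1u s0 := Pool.Agent.N49.QU.t_U1u Pool.Agent.N136.QL.t_FLC aMER
theorem uEEB : S_EEBu := Pool.Agent.N698.QU.t_EEBu aMER
theorem uFLB : S_FLBu := Pool.Agent.N488.QU.t_FLBu Pool.Agent.N136.QL.t_FLC aMER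
theorem uFUB : S_FUBu := Pool.Agent.N488.QU.t_FUBu Pool.Agent.N136.QL.t_FLC aMER
theorem uBOX : ∀ s0, S_BOXu s0 :=
  Pool.Agent.N521.QU.t_BOXu uFLB uFUB (Pool.Agent.N701.QU.t_AVGu Pool.Agent.N488.QU.t_AV1u) aMER
theorem uOFF : ∀ (s0 : ℕ) (a : ℤ), a = 1 ∨ a = -1 → S_OFFu s0 a :=
  Pool.Agent.N457.QU.t_OFFu Pool.Agent.N543.QU.t_GVNu uBOX aMER
theorem uAP2 : ∀ (s0 : ℕ) (a : ℤ), a = 1 ∨ a = -1 → S_AP2u s0 a :=
  Pool.Agent.N300.QU.t_AP2u aCORE aDIA uEEB uU0 uU1 aRNG uOFF aSP aMER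
theorem uB4P : ∀ s0, S_B4Pu s0 := Pool.Agent.N61.QU.t_B4Pu Pool.Agent.N403.QL.t_BVH aHZ aMER
theorem uH4P : ∀ s0, S_H4Pu s0 := Pool.Agent.N650.QU.t_H4Pu aSH uB4P uEEB uU0 uU1 aMER
theorem uMC : ∀ (s0 : ℕ) (a : ℤ), a = 1 ∨ a = -1 → S_MCu s0 a :=
  Pool.Agent.N136.QU.t_MCu uAP2 aBC2 uH4P uEEB uU0 uU1 aMER
theorem uBL : ∀ s0, S_BLu s0 := Pool.Agent.N519.QU.t_BLu uMC Pool.Agent.N123.QU.t_LOCu Pool.Agent.N123.QU.t_AVSu uU0 aMER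

/-- Primes `τ (m² - h²) + c`, uniformly in `c`. -/
theorem finalU : ∀ s0, FinalU s0 :=
  Pool.Agent.N765.QU.t_FINu uBL Pool.Agent.N123.QU.t_TLSu Pool.Agent.N123.QU.t_LWBu Pool.Agent.N123.QU.t_AVSu

end Pool.Agent.N728.QU
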