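import Pool.Agent.N728.QU.All
import Pool.Agent.N728.QU.DefG
import Pool.Agent.N433.QV.OFF
import Pool.Agent.N861.QV.AP2
import Pool.Agent.N935.QV.MC
import Pool.Agent.N814.QV.SER
import Pool.Agent.N704.QV.BL
import Pool.Agent.N353.QV.FIN
import Pool.Agent.N581.QV.UNI

set_option autoImplicit false

/-! # Project QV: assembly -/

namespace Pool.Agent.N728.QU

open Pool.Agent.N728.QL Pool.Agent.N728.QG

theorem gOFF : ∀ (s0 : ℕ) (a : ℤ), a ≠ 0 → S_OFFu s0 a :=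
  Pool.Agent.N433.QV.t_OFFg Pool.Agent.N543.QU.t_GVNu uBOX aMER
theorem gAP2 : ∀ (s0 : ℕ) (a : ℤ), a ≠ 0 → S_AP2u s0 a :=
  Pool.Agent.N861.QV.t_AP2g aCORE aDIA uEEB uU0 uU1 aRNG gOFF aSP aMER
theorem gMC : ∀ (s0 : ℕ) (a : ℤ), a ≠ 0 → S_MCu s0 a :=
  Pool.Agent.N935.QV.t_MCg gAP2 aBC2 uH4P uEEB uU0 uU1 aMER
theorem gBL (a b : ℤ) (ha : 1 ≤ a) : ∀ s0, S_BLg s0 a b :=
  Pool.Agent.N704.QV.t_BLg gMC a b ha (Pool.Agent.N814.QV.t_LOCg a b) (Pool.Agent.N814.QV.t_AVSg a b ha) uU0 aMER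

/-- Primes `τ (f(m) - f(h)) + c`, `f = a X² + b X`, uniformly in `c`. -/
theorem finalG (a b : ℤ) (ha : 1 ≤ a) : ∀ s0, FinalG s0 a b :=
  Pool.Agent.N353.QV.t_FING a b ha (gBL a b ha) (fun s0 => Pool.Agent.N814.QV.t_TLSg s0 a b ha)
    (fun s0 => Pool.Agent.N814.QV.t_LWBg s0 a b ha) (Pool.Agent.N814.QV.t_AVSg a b ha)

/-- Primes `τ (f(m) - f(h)) + c`, `f = a X² + b X`, uniformly in `c`, for all `M ≤ K H` simultaneously. -/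
theorem finalGU (a b : ℤ) (ha : 1 ≤ a) : ∀ s0, FinalGU s0 a b :=
  Pool.Agent.N581.QV.t_UNI a b ha (finalG a b ha) (Pool.Agent.N814.QV.t_AVSg a b ha)
    (fun s0 => Pool.Agent.N814.QV.t_TLSg s0 a b ha)

end Pool.Agent.N728.QU
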