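import Pool.Agent.N728.QU.DefG2
import Pool.Agent.N728.QN.Def

set_option autoImplicit false

/-! # Project QV (helper728): fixed `c`, with the infinite product. -/

namespace Pool.Agent.N728.QU

open Finset

noncomputable section

open Classical in
/-- The final theorem for fixed `c`: the constant terms `k = c - f(h)`, `f = a X² + b X`, with the constant of Hardy and
Littlewood. -/
def FinalK (a b c : ℤ) : Prop := ∀ ε : ℝ, 0 < ε → ∃ κ : ℝ, 0 < κ ∧ ∀ (δ : ℝ) (K : ℕ), 0 < δ → ∃ H0 : ℕ, ∀ H : ℕ,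
  H0 ≤ H → (((Icc 1 H).filter (fun h : ℕ =>
    Pool.Agent.N728.QL.Admissible a b (c - (a * (h : ℤ) ^ 2 + b * h)) ∧
    ¬ ∃ C : ℝ, Pool.Agent.N728.QL.IsC a b (c - (a * (h : ℤ) ^ 2 + b * h)) C ∧ κ ≤ C ∧ ∀ M : ℕ, M ≤ K * H →
      |(cntg a b 1 c h M : ℝ) - 2 * C * ∑ m ∈ (Icc 1 M).filter (fun m : ℕ => 2 ≤ Vg a b 1 c h m),
        1 / Real.log ((Vg a b 1 c h m : ℤ) : ℝ)| ≤ δ * (H / Real.log H))).card : ℝ) ≤ ε * H

end

end Pool.Agent.N728.QU
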