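import Pool.Agent.N728.QU.AllG
import Pool.Agent.N728.QU.DefG3
import Pool.Agent.N314.QN.CST
import Pool.Agent.N222.QV.FINK

set_option autoImplicit false

/-! # Project QV: assembly, fixed `c` with the infinite product -/

namespace Pool.Agent.N728.QU

open Pool.Agent.N728.QL Pool.Agent.N728.QG

/-- Primes `f(m) + c - f(h)`, `f = a X² + b X`, for fixed `c`, with the constant of Hardy and Littlewood. -/
theorem finalK (a b c : ℤ) (ha : 1 ≤ a) (hc : c ≠ 0) : FinalK a b c :=
  Pool.Agent.N222.QV.t_FINK a b c ha hc (finalGU a b ha) (Pool.Agent.N314.QN.t_CSTN a c (by omega) hc)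
    (Pool.Agent.N814.QV.t_AVSg a b ha)

end Pool.Agent.N728.QU
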