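import Pool.Agent.N728.QG.Def2

set_option autoImplicit false

/-! # Project QU (helper728), Liouville part: uniformity in the constant term `c`, all `c ≠ 0`, `|c| ≤ K B T`. -/

namespace Pool.Agent.N728.QU

open Finset MeasureTheory Pool.Agent.N728.QL Pool.Agent.N728.QG

noncomputable section

/-- B4Lu. -/
def S_B4Lu : Prop := ∃ C1 : ℕ, ∀ (K D q : ℕ) (ε : ℝ), 1 ≤ K → 1 ≤ D → 1 ≤ q → 0 < ε → ∃ B0 : ℕ, ∀ B : ℕ,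
  B0 ≤ B → ∀ (T : ℕ) (c : ℤ), c ≠ 0 → B ≤ T ^ D → (T : ℝ) * Real.log B ^ C1 ≤ B →
  (c.natAbs : ℝ) ≤ K * ((B : ℝ) * T) * Real.log B ^ 2 → H4 0 ε q K B T (fun n => lam ((n : ℤ) + c))

/-- H4Lu. -/
def S_H4Lu : Prop := ∀ (K K3 D q : ℕ) (ε : ℝ), 1 ≤ K → 1 ≤ D → 1 ≤ q → 0 < ε → ∃ B0 : ℕ, ∀ B : ℕ,
  B0 ≤ B → ∀ (T : ℕ) (c : ℤ), c ≠ 0 → B ≤ T ^ D → T ≤ K3 * B → (c.natAbs : ℝ) ≤ K3 * ((B : ℝ) * T) →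
  H4 0 ε q K B T (fun n => lam ((n : ℤ) + c))

/-- MCL2u. -/
def S_MCL2u (G : Polynomial ℤ) : Prop := ∀ (K C2 : ℕ) (ε δ : ℝ), 1 ≤ K → 0 < ε → 0 < δ → ∃ B0 : ℕ, ∀ B : ℕ,
  B0 ≤ B → ∀ (T : ℕ) (c : ℤ), c ≠ 0 → (c.natAbs : ℝ) ≤ K * ((B : ℝ) * T) →
  (B : ℝ) ≤ (T : ℝ) ^ G.natDegree * Real.log B ^ C2 → T ^ G.natDegree ≤ K * B → Rge G K B T →
  ∑ b ∈ (Ioc B (4 * B)).filter (fun b : ℕ => (1 + δ) * (B : ℝ) ≤ (b : ℝ)),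
    |∑ t ∈ Icc 1 T, lam ((t : ℤ) * (G.eval (t : ℤ) + b) + c)| ≤ ε * ((B : ℝ) * T)

/-- The final theorem for the Liouville function, uniformly in `c`. -/
def FinalL2u (G : Polynomial ℤ) : Prop := ∀ (ε : ℝ) (K C2 : ℕ), 0 < ε → ∃ B0 : ℕ,
  ∀ B : ℕ, B0 ≤ B → ∀ (T : ℕ) (c : ℤ), c ≠ 0 → (c.natAbs : ℝ) ≤ K * ((B : ℝ) * T) →
  (B : ℝ) ≤ (T : ℝ) ^ G.natDegree * Real.log B ^ C2 → T ^ G.natDegree ≤ K * B →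
  ∑ b ∈ Icc 1 B, |∑ t ∈ Icc 1 T, lam (fp G b c t)| ≤ ε * ((B : ℝ) * T)

end

end Pool.Agent.N728.QU
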