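import Pool.Agent.N728.QG.All2
import Pool.Agent.N728.QU.DefL
import Pool.Agent.N595.QU.B4L
import Pool.Agent.N371.QU.H4L
import Pool.Agent.N953.QU.MCL
import Pool.Agent.N56.QU.FINL2u

set_option autoImplicit false

/-! # Project QUL: assembly -/

namespace Pool.Agent.N728.QU

open Pool.Agent.N728.QL Pool.Agent.N728.QG

theorem uB4L : S_B4Lu := Pool.Agent.N595.QU.t_B4Lu Pool.Agent.N403.QG.t_BVL
theorem uH4L : S_H4Lu := Pool.Agent.N371.QU.t_H4Lu aSH uB4L aUU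
theorem uMCL2 : ∀ G : Polynomial ℤ, 1 ≤ G.natDegree → S_MCL2u G :=
  Pool.Agent.N953.QU.t_MCL2u aAL aBC2 uH4L aUU

/-- The Liouville function at `t (G t + b) + c`, uniformly in `c`. -/
theorem finalL2u (G : Polynomial ℤ) (hd : 1 ≤ G.natDegree) (hl : 0 < G.leadingCoeff) : FinalL2u G :=
  Pool.Agent.N56.QU.t_FINL2u G hd hl (uMCL2 G hd)

end Pool.Agent.N728.QU
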