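import Pool.Agent.N728.QU.DefG
import Pool.Agent.N728.QU.DefL

set_option autoImplicit false

/-! # Project QVL (helper728): the Liouville function at `f(m) - f(h) + c`, `f = a X² + b X`, uniformly in `c`. -/

namespace Pool.Agent.N728.QU

open Finset Pool.Agent.N728.QL Pool.Agent.N728.QG

noncomputable section

open Classical in
/-- The final theorem for the Liouville function in thin families, for all `M ≤ K H` simultaneously. -/
def FinalLT (a b : ℤ) : Prop := ∀ (ε : ℝ) (K : ℕ), 0 < ε → ∃ H0 : ℕ, ∀ H : ℕ, H0 ≤ H → ∀ c : ℤ, c ≠ 0 →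
  c.natAbs ≤ K * H ^ 2 →
  (((Icc 1 H).filter (fun h : ℕ => ∃ M : ℕ, M ≤ K * H ∧
    ε * H < |∑ m ∈ Icc 1 M, lam (Vg a b 1 c h m)|)).card : ℝ) ≤ ε * H

end

end Pool.Agent.N728.QU
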