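import Pool.Agent.N728.QU.AllL
import Pool.Agent.N728.QU.DefLT
import Pool.Agent.N27.QV.LT

set_option autoImplicit false

/-! # Project QVL: assembly -/

namespace Pool.Agent.N728.QU

open Pool.Agent.N728.QL Pool.Agent.N728.QG

/-- The Liouville function at `f(m) + c - f(h)`, `f = a X² + b X`, uniformly in `c`. -/
theorem finalLT (a b : ℤ) (ha : 1 ≤ a) : FinalLT a b := Pool.Agent.N27.QV.t_LT a b ha uMCL2

end Pool.Agent.N728.QU
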