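import Pool.Agent.N728.QU.AllK
import Pool.Agent.N67.QV.LSUM
import Pool.Agent.N401.QL.CST

set_option autoImplicit false

/-! # Project QV: the polynomials `X² + b X + c - (h² + b h)`, `c` fixed, with an explicit main term -/

namespace Pool.Agent.N728.QU

open Finset Filter Topology

/-- the value `m² + b m + A` -/
def dval (b : ℕ) (A : ℤ) (m : ℕ) : ℤ := (m : ℤ) ^ 2 + b * m + A

/-- number of roots modulo `p` -/
def dom (b : ℕ) (A : ℤ) (p : ℕ) : ℕ := ((range p).filter (fun m : ℕ => (p : ℤ) ∣ dval b A m)).card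

/-- product over the primes up to `z` -/
noncomputable def dser (b : ℕ) (A : ℤ) (z : ℕ) : ℝ :=
  ∏ p ∈ (Ioc 0 z).filter Nat.Prime, (1 - (dom b A p : ℝ) / p) / (1 - 1 / (p : ℝ))

/-- number of primes -/
def dcnt (b : ℕ) (A : ℤ) (M : ℕ) : ℕ := ((Icc 1 M).filter (fun m : ℕ => (dval b A m).toNat.Prime)).card

lemma dval_eq (b : ℕ) (c : ℤ) (h m : ℕ) : Vg 1 b 1 c h m = dval b (c - ((h : ℤ) ^ 2 + b * h)) m := by
  unfold Vg dval
  ring

lemma dadm (b : ℕ) (c : ℤ) (hc : c ≠ 0) (hpar : Even ((1 : ℤ) + b) → Odd c) (h : ℕ) (hh : c.natAbs < h) :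
    Pool.Agent.N728.QL.Admissible 1 b (c - (1 * (h : ℤ) ^ 2 + b * h)) := by
  have hh' : |c| < (h : ℤ) := by
    rw [Int.abs_eq_natAbs]
    exact_mod_cast hh
  have hc1 := neg_abs_le c
  have hc2 := le_abs_self c
  have hb0 : (0 : ℤ) ≤ (b : ℤ) := Int.natCast_nonneg b
  refine ⟨by simp, fun hcon => ?_, fun hcon => ?_⟩
  · obtain ⟨h1, h2⟩ := hcon
    have h3 := hpar h1
    have h4 : Even (1 * (h : ℤ) ^ 2 + b * h) := by
      have h5 : 1 * (h : ℤ) ^ 2 + b * h = (h : ℤ) * (h + 1) + ((1 : ℤ) + b) * h - 2 * h := by ring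
      rw [h5]
      exact ((Int.even_mul_succ_self (h : ℤ)).add (h1.mul_right _)).sub (even_two_mul _)
    exact (Int.not_even_iff_odd.2 (h3.sub_even h4)) h2
  · obtain ⟨r, hr⟩ := hcon
    obtain ⟨s, hs⟩ : ∃ s : ℤ, s = |r| := ⟨_, rfl⟩
    have hs0 : 0 ≤ s := by rw [hs]; exact abs_nonneg r
    have hs2 : s * s = r * r := by rw [hs]; exact abs_mul_abs_self r
    rw [← hs2] at hr
    obtain ⟨y, hy⟩ : ∃ y : ℤ, y = 2 * (h : ℤ) + b := ⟨_, rfl⟩
    have e1 : y * y - 4 * c = s * s := by rw [← hr, hy]; ring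
    have hy2 : 2 * (h : ℤ) ≤ y := by rw [hy]; linarith
    rcases lt_trichotomy s y with h1 | h1 | h1
    · have h2 : s ≤ y - 1 := by omega
      have h3 : s * s ≤ (y - 1) * (y - 1) := mul_self_le_mul_self hs0 h2
      nlinarith
    · rw [h1] at e1
      exact hc (by linarith)
    · have h2 : y + 1 ≤ s := by omega
      have hy0 : 0 ≤ y := by linarith [abs_nonneg c]
      have h3 : (y + 1) * (y + 1) ≤ s * s := mul_self_le_mul_self (by linarith) h2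
      nlinarith

lemma dser_eq (b : ℕ) (A : ℤ) (hA : Pool.Agent.N728.QL.Admissible 1 b A) {z : ℕ} (hz : 2 ≤ z) :
    dser b A z = 2 * Pool.Agent.N728.QL.partialC 1 b A z := by
  rw [← Pool.Agent.N401.QL.Sg_eq hA hz]
  unfold dser Pool.Agent.N728.QL.Sg dom Pool.Agent.N728.QL.om
  have h3 : ∀ m : ℕ, dval b A m = 1 * (m : ℤ) ^ 2 + (b : ℤ) * (m : ℤ) + A := by
    intro m
    unfold dval
    ring
  simp only [h3]

/-- Fixed `c`, explicit main term. -/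
theorem dens (b : ℕ) (c : ℤ) (hc : c ≠ 0) (hpar : Even ((1 : ℤ) + b) → Odd c) :
    ∀ ε : ℝ, 0 < ε → ∃ κ : ℝ, 0 < κ ∧ ∀ (δ : ℝ) (K : ℕ), 0 < δ → ∃ H₀ : ℕ, ∀ H : ℕ, H₀ ≤ H →
      ∃ S : Finset ℕ, (S.card : ℝ) ≤ ε * H ∧ ∀ h ∈ Icc 1 H, h ∉ S →
        ∃ C : ℝ, Tendsto (dser b (c - ((h : ℤ) ^ 2 + b * h))) atTop (𝓝 C) ∧ κ ≤ C ∧
          ∀ M : ℕ, M ≤ K * H → |(dcnt b (c - ((h : ℤ) ^ 2 + b * h)) M : ℝ) - C / 2 * (max ((M : ℝ) - h) 0 / Real.log H)| ≤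
            δ * (1 + C) * (H / Real.log H) := by
  classical
  intro ε hε
  obtain ⟨κ, hκ, h1⟩ := finalK 1 b c le_rfl hc (ε / 2) (by positivity)
  refine ⟨2 * κ, by positivity, fun δ K hδ => ?_⟩
  obtain ⟨H1, h2⟩ := h1 (δ / 2) K (by positivity)
  obtain ⟨δ1, hδ1⟩ : ∃ δ1 : ℝ, δ1 = min (δ / 2) (ε / 4) := ⟨_, rfl⟩
  have hδ1p : 0 < δ1 := by rw [hδ1]; exact lt_min (by positivity) (by positivity)
  have hδ1a : δ1 ≤ δ / 2 := by rw [hδ1]; exact min_le_left _ _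
  have hδ1b : δ1 ≤ ε / 4 := by rw [hδ1]; exact min_le_right _ _
  obtain ⟨H2, h3⟩ := Pool.Agent.N67.QV.t_LSUM 1 b c le_rfl δ1 K hδ1p
  obtain ⟨H3, hH3⟩ := exists_nat_ge ((2 + c.natAbs : ℝ) * 4 / ε)
  refine ⟨max (max H1 H2) (max H3 3), fun H hH => ?_⟩
  have hHa : H1 ≤ H := (le_max_left _ _).trans ((le_max_left _ _).trans hH)
  have hHb : H2 ≤ H := (le_max_right _ _).trans ((le_max_left _ _).trans hH)
  have hHc : H3 ≤ H := (le_max_left _ _).trans ((le_max_right _ _).trans hH)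
  have hHd : 3 ≤ H := (le_max_right _ _).trans ((le_max_right _ _).trans hH)
  have hlog : 0 < Real.log H := Real.log_pos (by exact_mod_cast (show 1 < H by omega))
  have hHpos : (0 : ℝ) < H := by exact_mod_cast (show 0 < H by omega)
  have h4 := h2 H hHa
  obtain ⟨S1, hS1⟩ : ∃ S1 : Finset ℕ, S1 = (Icc 1 H).filter (fun h : ℕ =>
    Pool.Agent.N728.QL.Admissible 1 b (c - (1 * (h : ℤ) ^ 2 + b * h)) ∧
    ¬ ∃ C : ℝ, Pool.Agent.N728.QL.IsC 1 b (c - (1 * (h : ℤ) ^ 2 + b * h)) C ∧ κ ≤ C ∧ ∀ M : ℕ, M ≤ K * H →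
      |(cntg 1 b 1 c h M : ℝ) - 2 * C * ∑ m ∈ (Icc 1 M).filter (fun m : ℕ => 2 ≤ Vg 1 b 1 c h m),
        1 / Real.log ((Vg 1 b 1 c h m : ℤ) : ℝ)| ≤ δ / 2 * (H / Real.log H)) := ⟨_, rfl⟩
  rw [← hS1] at h4
  refine ⟨S1 ∪ range (⌊δ1 * H⌋₊ + 1) ∪ range (c.natAbs + 1), ?_, ?_⟩
  · have e1 : ((S1 ∪ range (⌊δ1 * H⌋₊ + 1) ∪ range (c.natAbs + 1)).card : ℝ) ≤
        S1.card + (⌊δ1 * H⌋₊ + 1) + (c.natAbs + 1) := by
      have := (card_union_le (S1 ∪ range (⌊δ1 * H⌋₊ + 1)) (range (c.natAbs + 1))).trans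
        (Nat.add_le_add_right (card_union_le S1 (range (⌊δ1 * H⌋₊ + 1))) _)
      rw [card_range, card_range] at this
      exact_mod_cast this
    have e2 : (⌊δ1 * H⌋₊ : ℝ) ≤ δ1 * H := Nat.floor_le (by positivity)
    have e3 : δ1 * (H : ℝ) ≤ ε / 4 * H := mul_le_mul_of_nonneg_right hδ1b hHpos.le
    have e4 : (2 + c.natAbs : ℝ) ≤ ε / 4 * H := by
      have h5 : (2 + c.natAbs : ℝ) * 4 / ε ≤ H := hH3.trans (by exact_mod_cast hHc)
      rw [div_le_iff₀ hε] at h5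
      linarith
    linarith
  · intro h hh hS
    rw [mem_union, mem_union, not_or, not_or] at hS
    obtain ⟨⟨g1, g2⟩, g3⟩ := hS
    rw [mem_range, not_lt] at g2 g3
    have hA := dadm b c hc hpar h (by omega)
    rw [hS1, mem_filter, not_and] at g1
    have g4 := g1 hh
    rw [not_and, not_not] at g4
    obtain ⟨C, hC1, hC2, hC3⟩ := g4 hA
    have hone : c - (1 * (h : ℤ) ^ 2 + b * h) = c - ((h : ℤ) ^ 2 + b * h) := by ring
    rw [hone] at hA hC1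
    refine ⟨2 * C, ?_, by linarith, fun M hM => ?_⟩
    · have h5 : Tendsto (fun z => 2 * Pool.Agent.N728.QL.partialC 1 b (c - ((h : ℤ) ^ 2 + b * h)) z) atTop (𝓝 (2 * C)) :=
        Tendsto.const_mul 2 hC1
      refine h5.congr' ?_
      filter_upwards [eventually_ge_atTop 2] with z hz
      exact (dser_eq b _ hA hz).symm
    · have h6 := hC3 M hM
      have hh2 : h ≤ H := (mem_Icc.1 hh).2
      have hδh : δ1 * H ≤ h := by
        have := Nat.lt_floor_add_one (δ1 * (H : ℝ))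
        have h7 : ((⌊δ1 * H⌋₊ + 1 : ℕ) : ℝ) ≤ h := by exact_mod_cast g2
        push_cast at h7
        linarith
      have h8 := h3 H hHb h hδh hh2 M hM
      have hcnt : (dcnt b (c - ((h : ℤ) ^ 2 + b * h)) M : ℝ) = (cntg 1 b 1 c h M : ℝ) := by
        unfold dcnt cntg
        simp only [dval_eq]
      rw [hcnt]
      obtain ⟨Sm, hSm⟩ : ∃ Sm : ℝ, Sm = ∑ m ∈ (Icc 1 M).filter (fun m : ℕ => 2 ≤ Vg 1 b 1 c h m),
        1 / Real.log ((Vg 1 b 1 c h m : ℤ) : ℝ) := ⟨_, rfl⟩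
      rw [← hSm] at h6 h8
      obtain ⟨X, hX⟩ : ∃ X : ℝ, X = (H : ℝ) / Real.log H := ⟨_, rfl⟩
      have hX0 : 0 ≤ X := by rw [hX]; positivity
      rw [← hX] at h6 h8 ⊢
      obtain ⟨Y, hY⟩ : ∃ Y : ℝ, Y = max ((M : ℝ) - h) 0 / Real.log H := ⟨_, rfl⟩
      have hY2 : max ((M : ℝ) - h) 0 / (2 * Real.log H) = Y / 2 := by
        rw [hY]
        field_simp
      rw [← hY]
      rw [hY2] at h8
      have hC0 : 0 < C := lt_of_lt_of_le hκ hC2
      have h9 : |2 * C * Sm - 2 * C * (Y / 2)| ≤ 2 * C * (δ1 * X) := by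
        rw [← mul_sub, abs_mul, abs_of_pos (by positivity : (0 : ℝ) < 2 * C)]
        exact mul_le_mul_of_nonneg_left h8 (by positivity)
      have h10 : |(cntg 1 b 1 c h M : ℝ) - 2 * C / 2 * Y| ≤ δ / 2 * X + 2 * C * (δ1 * X) := by
        have e5 : (cntg 1 b 1 c h M : ℝ) - 2 * C / 2 * Y =
            ((cntg 1 b 1 c h M : ℝ) - 2 * C * Sm) + (2 * C * Sm - 2 * C * (Y / 2)) := by ring
        rw [e5]
        exact (abs_add_le _ _).trans (add_le_add h6 h9)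
      refine h10.trans ?_
      have e6 : 2 * C * (δ1 * X) ≤ 2 * C * (δ / 2 * X) := by gcongr
      nlinarith [mul_nonneg (mul_nonneg hδ.le hC0.le) hX0, mul_nonneg hδ.le hX0]

end Pool.Agent.N728.QU
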