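import Pool.Agent.N728.QU.Def

set_option autoImplicit false

/-!
# Drafts of the two results of project QU (bridges from `FinalU`)
-/

namespace Pool.Agent.N728.QU.Draft5

open Finset

/-- `N` has few small prime factors beyond `s₀`: `∑_{p ∣ N, p > s} 1/p ≤ 1/√s` for all `s ≥ s₀`. -/
def Tame (s₀ : ℕ) (N : ℤ) : Prop :=
  N ≠ 0 ∧ ∀ s : ℕ, s₀ ≤ s → ∑ p ∈ N.natAbs.primeFactors.filter (fun p => s < p), 1 / (p : ℝ) ≤ 1 / √(s : ℝ)

/-- Every fixed `N ≠ 0` satisfies the condition with `s₀ = |N|`. -/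
theorem tame_natAbs (N : ℤ) (h : N ≠ 0) : Tame N.natAbs N := by
  refine ⟨h, fun s hs => ?_⟩
  have h1 : N.natAbs.primeFactors.filter (fun p => s < p) = ∅ := by
    rw [filter_eq_empty_iff]
    intro p hp hsp
    have := Nat.le_of_mem_primeFactors hp
    omega
  rw [h1, sum_empty]
  positivity

/-- The number of the representations `n = p + m²`, `m ≥ 1`, `p` prime. -/
def rep (n : ℤ) : ℕ := ((Icc 1 n.toNat).filter (fun m : ℕ => (n - (m : ℤ) ^ 2).toNat.Prime)).card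

/-- The sum of `1 / log (n - m²)` over the `m ≥ 1` with `n - m² ≥ 2`. -/
noncomputable def logSum (n : ℤ) : ℝ :=
  ∑ m ∈ (Icc 1 n.toNat).filter (fun m : ℕ => 2 ≤ n - (m : ℤ) ^ 2), 1 / Real.log ((n - (m : ℤ) ^ 2 : ℤ) : ℝ)

/-- The number of the solutions of `m² ≡ n` modulo `p`. -/
def omega (n : ℤ) (p : ℕ) : ℕ := ((range p).filter (fun m : ℕ => (p : ℤ) ∣ n - (m : ℤ) ^ 2)).card

/-- The singular series of Hardy and Littlewood for `n = p + m²`, over the primes `p ≤ Z` (the factor at an odd `p` is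
`1 - (n/p) / (p - 1)`). -/
noncomputable def series (n : ℤ) (Z : ℕ) : ℝ :=
  ∏ p ∈ (Ioc 0 Z).filter Nat.Prime, (1 - (omega n p : ℝ) / p) / (1 - 1 / (p : ℝ))

lemma V_eq (N : ℤ) (h m : ℕ) : V (-1) N h m = N + (h : ℤ) ^ 2 - (m : ℤ) ^ 2 := by
  unfold V
  ring

lemma series_eq (N : ℤ) (h Z : ℕ) : series (N + (h : ℤ) ^ 2) Z = Sq (-1) N h Z := by
  unfold series Sq omega
  simp only [V_eq]

/-- all `m` beyond a bound `≥ √n` have `n - m² < 2` -/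
lemma filter_eq (n : ℤ) (M : ℕ) (P : ℤ → Prop) [DecidablePred P] (hP : ∀ v, P v → 1 ≤ v) (hM : n ≤ (M : ℤ) ^ 2) :
    (Icc 1 n.toNat).filter (fun m : ℕ => P (n - (m : ℤ) ^ 2)) = (Icc 1 M).filter (fun m : ℕ => P (n - (m : ℤ) ^ 2)) := by
  ext m
  rw [mem_filter, mem_filter, mem_Icc, mem_Icc]
  constructor
  · rintro ⟨⟨h1, h2⟩, h3⟩
    refine ⟨⟨h1, ?_⟩, h3⟩
    have h4 := hP _ h3
    by_contra h5
    push Not at h5
    have h6 : ((M : ℤ) + 1) ≤ m := by exact_mod_cast h5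
    nlinarith [Int.natCast_nonneg M]
  · rintro ⟨⟨h1, h2⟩, h3⟩
    refine ⟨⟨h1, ?_⟩, h3⟩
    have h4 := hP _ h3
    have h6 : (1 : ℤ) ≤ m := by exact_mod_cast h1
    have h7 : (m : ℤ) ≤ n := by nlinarith
    omega

/-- The conclusion for one `h`, `n = N + h²`: the product is at least `κ`, and the number of representations is the
expected one up to `δ H / log H`. -/
def Good (κ δ : ℝ) (N : ℤ) (H Z : ℕ) (h : ℕ) : Prop :=
  κ ≤ series (N + (h : ℤ) ^ 2) Z ∧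
    |(rep (N + (h : ℤ) ^ 2) : ℝ) - series (N + (h : ℤ) ^ 2) Z * logSum (N + (h : ℤ) ^ 2)| ≤ δ * (H / Real.log H)

open Classical in
/-- The number of the `1 ≤ h ≤ H` for which the conclusion fails. -/
noncomputable def exceptions (κ δ : ℝ) (N : ℤ) (H Z : ℕ) : ℕ :=
  ((Icc 1 H).filter (fun h : ℕ => ¬ Good κ δ N H Z h)).card

theorem bridgeA (hF : ∀ s0, FinalU s0) (s₀ : ℕ) :
    ∀ ε : ℝ, 0 < ε → ∃ κ : ℝ, 0 < κ ∧ ∀ (δ : ℝ) (K : ℕ), 0 < δ → ∃ Z₀ : ℕ, ∀ A : ℕ, ∃ H₀ : ℕ, ∀ H : ℕ, H₀ ≤ H →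
      ∀ (N : ℤ) (Z : ℕ), Tame s₀ N → N.natAbs ≤ K * H ^ 2 → Z₀ ≤ Z → (Z : ℝ) ≤ Real.log H ^ A →
      (exceptions κ δ N H Z : ℝ) ≤ ε * H := by
  classical
  intro ε hε
  obtain ⟨κ, hκ, h1⟩ := hF s₀ ε hε
  refine ⟨κ, hκ, fun δ K hδ => ?_⟩
  obtain ⟨Z₀, h2⟩ := h1 δ (K + 1) hδ
  refine ⟨Z₀, fun A => ?_⟩
  obtain ⟨H₀, h3⟩ := h2 A
  refine ⟨H₀, fun H hH N Z hN hNK hZ1 hZ2 => ?_⟩
  have h4 := h3 H hH ((K + 1) * H) Z N (-1) hN (Or.inr rfl)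
    (hNK.trans (Nat.mul_le_mul_right _ (Nat.le_succ K))) le_rfl hZ1 hZ2
  refine le_trans (le_of_eq ?_) h4
  unfold exceptions
  congr 2
  apply filter_congr
  intro h hh
  rw [mem_Icc] at hh
  have hb : N + (h : ℤ) ^ 2 ≤ (((K + 1) * H : ℕ) : ℤ) ^ 2 := by
    have e1 : (N.natAbs : ℤ) ≤ K * (H : ℤ) ^ 2 := by exact_mod_cast hNK
    have e2 : N ≤ N.natAbs := Int.le_natAbs
    have e3 : (h : ℤ) ≤ H := by exact_mod_cast hh.2
    have e4 : (h : ℤ) ^ 2 ≤ (H : ℤ) ^ 2 := pow_le_pow_left₀ (by positivity) e3 2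
    push_cast
    have e5 : (0 : ℤ) ≤ K := by positivity
    nlinarith [mul_nonneg e5 (sq_nonneg (H : ℤ)), mul_nonneg (mul_nonneg e5 e5) (sq_nonneg (H : ℤ))]
  unfold Good rep logSum cntu
  rw [series_eq]
  simp only [V_eq]
  rw [filter_eq (N + (h : ℤ) ^ 2) ((K + 1) * H) (fun v => v.toNat.Prime)
      (fun v hv => by have := Nat.Prime.two_le hv; omega) hb,
    filter_eq (N + (h : ℤ) ^ 2) ((K + 1) * H) (fun v => 2 ≤ v) (fun v hv => by omega) hb]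

end Pool.Agent.N728.QU.Draft5
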