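import Pool.Agent.N728.QU.Def

set_option autoImplicit false

/-!
# Draft of the second result of project QU
-/

namespace Pool.Agent.N728.QU.Draft6

open Finset

/-- `c` has few small prime factors beyond `s₀`: `∑_{p ∣ c, p > s} 1/p ≤ 1/√s` for all `s ≥ s₀`. -/
def Tame (s₀ : ℕ) (c : ℤ) : Prop :=
  c ≠ 0 ∧ ∀ s : ℕ, s₀ ≤ s → ∑ p ∈ c.natAbs.primeFactors.filter (fun p => s < p), 1 / (p : ℝ) ≤ 1 / √(s : ℝ)

/-- Every fixed `c ≠ 0`, for example `c = 1`, satisfies the condition with `s₀ = |c|`. -/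
theorem tame_natAbs (c : ℤ) (h : c ≠ 0) : Tame c.natAbs c := by
  refine ⟨h, fun s hs => ?_⟩
  have h1 : c.natAbs.primeFactors.filter (fun p => s < p) = ∅ := by
    rw [filter_eq_empty_iff]
    intro p hp hsp
    have := Nat.le_of_mem_primeFactors hp
    omega
  rw [h1, sum_empty]
  positivity

/-- The number of the `1 ≤ m ≤ M` with `m² + k` a (positive) prime. -/
def primeCount (k : ℤ) (M : ℕ) : ℕ := ((Icc 1 M).filter (fun m : ℕ => ((m : ℤ) ^ 2 + k).toNat.Prime)).card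

/-- The sum of `1 / log (m² + k)` over the `1 ≤ m ≤ M` with `m² + k ≥ 2`. -/
noncomputable def logSum (k : ℤ) (M : ℕ) : ℝ :=
  ∑ m ∈ (Icc 1 M).filter (fun m : ℕ => 2 ≤ (m : ℤ) ^ 2 + k), 1 / Real.log (((m : ℤ) ^ 2 + k : ℤ) : ℝ)

/-- The number of the solutions of `m² + k ≡ 0` modulo `p`. -/
def omega (k : ℤ) (p : ℕ) : ℕ := ((range p).filter (fun m : ℕ => (p : ℤ) ∣ (m : ℤ) ^ 2 + k)).card

/-- The product of Hardy and Littlewood for `m² + k`, over the primes `p ≤ Z` (the factor at an odd `p` is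
`1 - (-k/p) / (p - 1)`). -/
noncomputable def series (k : ℤ) (Z : ℕ) : ℝ :=
  ∏ p ∈ (Ioc 0 Z).filter Nat.Prime, (1 - (omega k p : ℝ) / p) / (1 - 1 / (p : ℝ))

lemma V_eq (c : ℤ) (h m : ℕ) : V 1 c h m = (m : ℤ) ^ 2 + (c - (h : ℤ) ^ 2) := by
  unfold V
  ring

lemma series_eq (c : ℤ) (h Z : ℕ) : series (c - (h : ℤ) ^ 2) Z = Sq 1 c h Z := by
  unfold series Sq omega
  simp only [V_eq]

/-- The conclusion for one `k`: the product is at least `κ`, and the number of primes `m² + k`, `m ≤ M`, is the expected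
one up to `δ H / log H`. -/
def Good (κ δ : ℝ) (H M Z : ℕ) (k : ℤ) : Prop :=
  κ ≤ series k Z ∧ |(primeCount k M : ℝ) - series k Z * logSum k M| ≤ δ * (H / Real.log H)

open Classical in
/-- The number of the `1 ≤ h ≤ H` for which the conclusion fails for `k = c - h²`. -/
noncomputable def exceptions (κ δ : ℝ) (c : ℤ) (H M Z : ℕ) : ℕ :=
  ((Icc 1 H).filter (fun h : ℕ => ¬ Good κ δ H M Z (c - (h : ℤ) ^ 2))).card

theorem bridgeB (hF : ∀ s0, FinalU s0) (s₀ : ℕ) :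
    ∀ ε : ℝ, 0 < ε → ∃ κ : ℝ, 0 < κ ∧ ∀ (δ : ℝ) (K : ℕ), 0 < δ → ∃ Z₀ : ℕ, ∀ A : ℕ, ∃ H₀ : ℕ, ∀ H : ℕ, H₀ ≤ H →
      ∀ (c : ℤ) (M Z : ℕ), Tame s₀ c → c.natAbs ≤ K * H ^ 2 → M ≤ K * H → Z₀ ≤ Z → (Z : ℝ) ≤ Real.log H ^ A →
      (exceptions κ δ c H M Z : ℝ) ≤ ε * H := by
  classical
  intro ε hε
  obtain ⟨κ, hκ, h1⟩ := hF s₀ ε hε
  refine ⟨κ, hκ, fun δ K hδ => ?_⟩
  obtain ⟨Z₀, h2⟩ := h1 δ K hδ
  refine ⟨Z₀, fun A => ?_⟩
  obtain ⟨H₀, h3⟩ := h2 A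
  refine ⟨H₀, fun H hH c M Z hc hcK hM hZ1 hZ2 => ?_⟩
  have h4 := h3 H hH M Z c 1 hc (Or.inl rfl) hcK hM hZ1 hZ2
  refine le_trans (le_of_eq ?_) h4
  unfold exceptions
  congr 2
  apply filter_congr
  intro h hh
  unfold Good primeCount logSum cntu
  rw [series_eq]
  simp only [V_eq]

end Pool.Agent.N728.QU.Draft6
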