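import Pool.Agent.N728.QU.AllG

set_option autoImplicit false

/-! # Project QV: a prime `c + h (h + b) - m (m + b)` with `m ≤ η h`, for almost all `h` -/

namespace Pool.Agent.N728.QU

open Finset

/-- For almost all `h` there is `1 ≤ m ≤ η h` with `c + h (h + b) - m (m + b)` prime. -/
theorem win (b : ℕ) (hb : b ≤ 1) (c : ℤ) (hc : c ≠ 0) (hpar : Even ((1 : ℤ) + b) → Odd c) (η : ℝ) (hη : 0 < η) :
    ∀ ε : ℝ, 0 < ε → ∃ H₀ : ℕ, ∀ H : ℕ, H₀ ≤ H →
      ∃ S : Finset ℕ, (S.card : ℝ) ≤ ε * H ∧ ∀ h ∈ Icc 1 H, h ∉ S →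
        ∃ m : ℕ, 1 ≤ m ∧ (m : ℝ) ≤ η * h ∧ (c + (h : ℤ) * (h + b) - m * (m + b)).toNat.Prime := by
  classical
  intro ε hε
  -- `η ≤ 1/2` without loss of generality
  obtain ⟨η', hη'⟩ : ∃ η' : ℝ, η' = min η (1 / 2) := ⟨_, rfl⟩
  have hη'0 : 0 < η' := by rw [hη']; exact lt_min hη (by norm_num)
  have hη'1 : η' ≤ η := by rw [hη']; exact min_le_left _ _
  have hη'2 : η' ≤ 1 / 2 := by rw [hη']; exact min_le_right _ _
  have hadg : Adg 1 b c := by
    refine ⟨fun p hp h _ => ?_, fun h1 h2 => ?_⟩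
    · exfalso
      have h1 : (p : ℤ) ∣ 1 := h
      have h2 : p ∣ 1 := by exact_mod_cast h1
      exact hp.one_lt.ne' (Nat.dvd_one.1 h2)
    · exact (Int.not_even_iff_odd.2 (hpar (even_iff_two_dvd.2 h1))) (even_iff_two_dvd.2 h2)
  have htame : Tame c.natAbs c := by
    refine ⟨hc, fun s hs => ?_⟩
    have h1 : c.natAbs.primeFactors.filter (fun p => s < p) = ∅ := by
      rw [filter_eq_empty_iff]
      intro p hp hsp
      have := Nat.le_of_mem_primeFactors hp
      omega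
    rw [h1, sum_empty]
    positivity
  obtain ⟨κ, hκ, h1⟩ := finalGU 1 b le_rfl c.natAbs (ε / 2) (by positivity)
  obtain ⟨δ, hδ⟩ : ∃ δ : ℝ, δ = κ * (η' * (ε / 4)) / 12 := ⟨_, rfl⟩
  have hδ0 : 0 < δ := by rw [hδ]; positivity
  obtain ⟨Z, h2⟩ := h1 δ 1 hδ0
  obtain ⟨H1, h3⟩ := h2 1
  -- largeness
  obtain ⟨H2, hH2⟩ := exists_nat_ge (Real.exp (Z + 1))
  obtain ⟨H3, hH3⟩ := exists_nat_ge ((16 : ℝ) / (η' * ε) + 8 * (c.natAbs + 4) / ε + 16 * (c.natAbs + 2))
  refine ⟨max (max H1 H2) (max H3 4), fun H hH => ?_⟩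
  have hHa : H1 ≤ H := (le_max_left _ _).trans ((le_max_left _ _).trans hH)
  have hHb : H2 ≤ H := (le_max_right _ _).trans ((le_max_left _ _).trans hH)
  have hHc : H3 ≤ H := (le_max_left _ _).trans ((le_max_right _ _).trans hH)
  have hHd : 4 ≤ H := (le_max_right _ _).trans ((le_max_right _ _).trans hH)
  have hHr : (4 : ℝ) ≤ H := by exact_mod_cast hHd
  have hH0 : (0 : ℝ) < H := by linarith
  have hlog : 0 < Real.log H := Real.log_pos (by linarith)
  have hZ : (Z : ℝ) ≤ Real.log H ^ 1 := by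
    rw [pow_one, Real.le_log_iff_exp_le hH0]
    calc Real.exp Z ≤ Real.exp (Z + 1) := Real.exp_le_exp.2 (by linarith)
      _ ≤ H2 := hH2
      _ ≤ H := by exact_mod_cast hHb
  have hbig : (16 : ℝ) / (η' * ε) + 8 * (c.natAbs + 4) / ε + 16 * (c.natAbs + 2) ≤ H :=
    hH3.trans (by exact_mod_cast hHc)
  have hp1 : (0 : ℝ) ≤ 16 / (η' * ε) := by positivity
  have hp2 : (0 : ℝ) ≤ 8 * (c.natAbs + 4) / ε := by positivity
  have hp3 : (0 : ℝ) ≤ (c.natAbs : ℝ) := Nat.cast_nonneg _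
  have hcH : (c.natAbs : ℝ) ≤ H := by linarith
  have hcH2 : c.natAbs ≤ 1 * H ^ 2 := by
    have e1 : c.natAbs ≤ H := by exact_mod_cast hcH
    nlinarith
  have h4 := h3 H hHa Z c (-1) htame hadg (Or.inr rfl) hcH2 le_rfl hZ
  obtain ⟨S1, hS1⟩ : ∃ S1 : Finset ℕ, S1 = (Icc 1 H).filter (fun h : ℕ => ¬ (κ ≤ Sqg 1 b (-1) c h Z ∧
      ∀ M : ℕ, M ≤ 1 * H → |(cntg 1 b (-1) c h M : ℝ) -
      Sqg 1 b (-1) c h Z * ∑ m ∈ (Icc 1 M).filter (fun m : ℕ => 2 ≤ Vg 1 b (-1) c h m),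
        1 / Real.log ((Vg 1 b (-1) c h m : ℤ) : ℝ)| ≤ δ * (H / Real.log H))) := ⟨_, rfl⟩
  rw [← hS1] at h4
  refine ⟨S1 ∪ range (⌊ε / 4 * H⌋₊ + 1), ?_, ?_⟩
  · have e1 : ((S1 ∪ range (⌊ε / 4 * H⌋₊ + 1)).card : ℝ) ≤ S1.card + (⌊ε / 4 * H⌋₊ + 1) := by
      have := card_union_le S1 (range (⌊ε / 4 * H⌋₊ + 1))
      rw [card_range] at this
      exact_mod_cast this
    have e2 : (⌊ε / 4 * H⌋₊ : ℝ) ≤ ε / 4 * H := Nat.floor_le (by positivity)
    have e3 : (1 : ℝ) ≤ ε / 4 * H := by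
      have h5 : 8 * ((c.natAbs : ℝ) + 4) / ε ≤ H := by linarith
      rw [div_le_iff₀ hε] at h5
      nlinarith
    linarith
  · intro h hh hS
    rw [mem_union, not_or] at hS
    obtain ⟨g1, g2⟩ := hS
    rw [mem_range, not_lt] at g2
    rw [hS1, mem_filter, not_and, not_not] at g1
    obtain ⟨g3, g4⟩ := g1 hh
    have hhH : h ≤ H := (mem_Icc.1 hh).2
    have hh1 : 1 ≤ h := (mem_Icc.1 hh).1
    have hhHr : (h : ℝ) ≤ H := by exact_mod_cast hhH
    have hεh : ε / 4 * H ≤ h := by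
      have := Nat.lt_floor_add_one (ε / 4 * (H : ℝ))
      have h7 : ((⌊ε / 4 * H⌋₊ + 1 : ℕ) : ℝ) ≤ h := by exact_mod_cast g2
      push_cast at h7
      linarith
    obtain ⟨M, hM⟩ : ∃ M : ℕ, M = ⌊η' * h⌋₊ := ⟨_, rfl⟩
    have hh0 : (0 : ℝ) ≤ (h : ℝ) := Nat.cast_nonneg _
    have hM1 : (M : ℝ) ≤ η' * h := by rw [hM]; exact Nat.floor_le (by positivity)
    have hM2 : η' * h - 1 < M := by
      rw [hM]
      have := Nat.lt_floor_add_one (η' * (h : ℝ))
      linarith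
    have hMH : M ≤ 1 * H := by
      have : (M : ℝ) ≤ H := by nlinarith
      rw [one_mul]
      exact_mod_cast this
    have g5 := g4 M hMH
    -- all values are in `[2, H ^ 3]`
    have hhc : (8 : ℝ) * (c.natAbs + 4) / 4 ≤ h := by
      have h5 : 8 * ((c.natAbs : ℝ) + 4) / ε ≤ H := by linarith
      rw [div_le_iff₀ hε] at h5
      nlinarith
    have hval : ∀ m ∈ Icc 1 M, 2 ≤ Vg 1 b (-1) c h m ∧ ((Vg 1 b (-1) c h m : ℤ) : ℝ) ≤ (H : ℝ) ^ 3 := by
      intro m hm
      rw [mem_Icc] at hm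
      have e1 : (m : ℝ) ≤ h / 2 := by
        have : (m : ℝ) ≤ M := by exact_mod_cast hm.2
        nlinarith
      have e0 : (0 : ℝ) ≤ m := Nat.cast_nonneg _
      have e2 : ((Vg 1 b (-1) c h m : ℤ) : ℝ) = c + (h : ℝ) * (h + b) - m * (m + b) := by
        unfold Vg
        push_cast
        ring
      have hcabs : |(c : ℝ)| = (c.natAbs : ℝ) := by
        rw [← Int.cast_abs, Int.abs_eq_natAbs, Int.cast_natCast]
      have hc1 : -(c.natAbs : ℝ) ≤ c := by
        rw [← hcabs]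
        exact neg_abs_le _
      have hc2 : (c : ℝ) ≤ c.natAbs := by
        rw [← hcabs]
        exact le_abs_self _
      have hb0 : (0 : ℝ) ≤ (b : ℝ) := Nat.cast_nonneg _
      have hb1 : (b : ℝ) ≤ 1 := by exact_mod_cast hb
      constructor
      · have e3 : (2 : ℝ) ≤ ((Vg 1 b (-1) c h m : ℤ) : ℝ) := by
          rw [e2]
          have e4 : (m : ℝ) * (m + b) ≤ h / 2 * (h / 2 + b) := by
            apply mul_le_mul e1 (by linarith) (by linarith) (by linarith)
          nlinarith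
        exact_mod_cast e3
      · rw [e2]
        have e5 : (0 : ℝ) ≤ m * (m + b) := by positivity
        have e6 : (h : ℝ) * (h + b) ≤ H * (H + 1) := by
          apply mul_le_mul hhHr (by linarith) (by positivity) (by linarith)
        nlinarith [mul_nonneg hH0.le (mul_nonneg hH0.le hH0.le)]
    have hfil : (Icc 1 M).filter (fun m : ℕ => 2 ≤ Vg 1 b (-1) c h m) = Icc 1 M := by
      rw [filter_true_of_mem]
      exact fun m hm => (hval m hm).1
    rw [hfil] at g5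
    have hsum : (M : ℝ) * (1 / (3 * Real.log H)) ≤ ∑ m ∈ Icc 1 M, 1 / Real.log ((Vg 1 b (-1) c h m : ℤ) : ℝ) := by
      have e1 : (M : ℝ) * (1 / (3 * Real.log H)) = ∑ _m ∈ Icc 1 M, 1 / (3 * Real.log H) := by
        rw [sum_const, Nat.card_Icc, nsmul_eq_mul]
        simp
      rw [e1]
      apply sum_le_sum
      intro m hm
      obtain ⟨v1, v2⟩ := hval m hm
      have v3 : (2 : ℝ) ≤ ((Vg 1 b (-1) c h m : ℤ) : ℝ) := by exact_mod_cast v1
      have v4 : 0 < Real.log ((Vg 1 b (-1) c h m : ℤ) : ℝ) := Real.log_pos (by linarith)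
      have v5 : Real.log ((Vg 1 b (-1) c h m : ℤ) : ℝ) ≤ 3 * Real.log H := by
        have := Real.log_le_log (by linarith) v2
        rw [Real.log_pow] at this
        push_cast at this
        exact this
      exact one_div_le_one_div_of_le v4 v5
    have hMlow : η' * (ε / 4) * H / 2 ≤ M := by
      have e1 : η' * (ε / 4 * H) ≤ η' * h := mul_le_mul_of_nonneg_left hεh hη'0.le
      have e2 : (16 : ℝ) / (η' * ε) ≤ H := by linarith
      rw [div_le_iff₀ (by positivity)] at e2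
      nlinarith
    have hS0 : 0 < Sqg 1 b (-1) c h Z := lt_of_lt_of_le hκ g3
    have hpos : 0 < (cntg 1 b (-1) c h M : ℝ) := by
      have e1 : κ * ((η' * (ε / 4) * H / 2) * (1 / (3 * Real.log H))) ≤
          Sqg 1 b (-1) c h Z * ∑ m ∈ Icc 1 M, 1 / Real.log ((Vg 1 b (-1) c h m : ℤ) : ℝ) := by
        apply mul_le_mul g3 _ (by positivity) hS0.le
        exact (mul_le_mul_of_nonneg_right hMlow (by positivity)).trans hsum
      have e2 : κ * ((η' * (ε / 4) * H / 2) * (1 / (3 * Real.log H))) = 2 * (δ * (H / Real.log H)) := by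
        rw [hδ]
        field_simp
        ring
      have e3 : 0 < δ * (H / Real.log H) := by positivity
      have e4 := (abs_le.1 g5).1
      linarith
    have hcard : 0 < cntg 1 b (-1) c h M := by exact_mod_cast hpos
    unfold cntg at hcard
    rw [card_pos] at hcard
    obtain ⟨m, hm⟩ := hcard
    rw [mem_filter, mem_Icc] at hm
    refine ⟨m, hm.1.1, ?_, ?_⟩
    · have e1 : (m : ℝ) ≤ M := by exact_mod_cast hm.1.2
      nlinarith
    · have e2 : Vg 1 b (-1) c h m = c + (h : ℤ) * (h + b) - m * (m + b) := by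
        unfold Vg
        ring
      rw [← e2]
      exact hm.2

/-- For almost all `n` there is a prime `k (n - k) + c`, `k ≤ n / 2`, which is at least `(1 - η) n² / 4`. -/
theorem big (c : ℤ) (hc : c = 1 ∨ c = -1) (η ε : ℝ) (hη : 0 < η) (hε : 0 < ε) : ∃ N₀ : ℕ, ∀ N : ℕ, N₀ ≤ N →
    ∃ S : Finset ℕ, (S.card : ℝ) ≤ ε * N ∧ ∀ n ∈ Icc 1 N, n ∉ S →
      ∃ k : ℕ, 1 ≤ k ∧ k ≤ n / 2 ∧ (((k * (n - k) : ℕ) : ℤ) + c).toNat.Prime ∧
        (1 - η) * ((n : ℝ) ^ 2 / 4) ≤ (((((k * (n - k) : ℕ) : ℤ) + c).toNat : ℕ) : ℝ) := by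
  classical
  have hc0 : c ≠ 0 := by rcases hc with h | h <;> omega
  have hodd : Odd c := by
    rcases hc with h | h
    · rw [h]; exact odd_one
    · rw [h]; exact odd_one.neg
  obtain ⟨η1, hη1⟩ : ∃ η1 : ℝ, η1 = min η 1 / 2 := ⟨_, rfl⟩
  have hη10 : 0 < η1 := by rw [hη1]; exact div_pos (lt_min hη one_pos) two_pos
  have hη11 : η1 ≤ η / 2 := by rw [hη1]; exact div_le_div_of_nonneg_right (min_le_left _ _) two_pos.le
  have hη12 : η1 ≤ 1 / 2 := by rw [hη1]; exact div_le_div_of_nonneg_right (min_le_right _ _) two_pos.le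
  obtain ⟨N1, hN1⟩ := win 0 (by norm_num) c hc0 (fun _ => hodd) η1 hη10 (ε / 4) (by positivity)
  obtain ⟨N2, hN2⟩ := win 1 le_rfl c hc0 (fun _ => hodd) η1 hη10 (ε / 4) (by positivity)
  obtain ⟨h0, hh0⟩ := exists_nat_ge ((6 : ℝ) / η)
  obtain ⟨N3, hN3⟩ := exists_nat_ge ((2 * h0 + 2 : ℝ) * 2 / ε)
  refine ⟨max (max N1 N2) (max N3 1), fun N hN => ?_⟩
  have hNa : N1 ≤ N := (le_max_left _ _).trans ((le_max_left _ _).trans hN)
  have hNb : N2 ≤ N := (le_max_right _ _).trans ((le_max_left _ _).trans hN)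
  have hNc : N3 ≤ N := (le_max_left _ _).trans ((le_max_right _ _).trans hN)
  obtain ⟨S0, a1, a2⟩ := hN1 N hNa
  obtain ⟨S1, b1, b2⟩ := hN2 N hNb
  refine ⟨S0.image (fun h => 2 * h) ∪ S1.image (fun h => 2 * h + 1) ∪ range (2 * h0 + 2), ?_, ?_⟩
  · have e1 : ((S0.image (fun h => 2 * h) ∪ S1.image (fun h => 2 * h + 1) ∪ range (2 * h0 + 2)).card : ℝ) ≤
        S0.card + S1.card + (2 * h0 + 2) := by
      have h1 := card_union_le (S0.image (fun h => 2 * h) ∪ S1.image (fun h => 2 * h + 1)) (range (2 * h0 + 2))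
      have h2 := card_union_le (S0.image (fun h => 2 * h)) (S1.image (fun h => 2 * h + 1))
      have h3 := card_image_le (s := S0) (f := fun h => 2 * h)
      have h4 := card_image_le (s := S1) (f := fun h => 2 * h + 1)
      rw [card_range] at h1
      have h5 : (S0.image (fun h => 2 * h) ∪ S1.image (fun h => 2 * h + 1) ∪ range (2 * h0 + 2)).card ≤
        S0.card + S1.card + (2 * h0 + 2) := by omega
      exact_mod_cast h5
    have e2 : (2 * h0 + 2 : ℝ) ≤ ε / 2 * N := by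
      have h5 : (2 * h0 + 2 : ℝ) * 2 / ε ≤ N := hN3.trans (by exact_mod_cast hNc)
      rw [div_le_iff₀ hε] at h5
      linarith
    linarith
  · intro n hn hS
    rw [mem_union, mem_union, not_or, not_or] at hS
    obtain ⟨⟨s1, s2⟩, s3⟩ := hS
    rw [mem_range, not_lt] at s3
    rw [mem_Icc] at hn
    -- the common part
    have key : ∀ b h : ℕ, b ≤ 1 → n = 2 * h + b → (∃ m : ℕ, 1 ≤ m ∧ (m : ℝ) ≤ η1 * h ∧
        (c + (h : ℤ) * (h + b) - m * (m + b)).toNat.Prime) →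
        ∃ k : ℕ, 1 ≤ k ∧ k ≤ n / 2 ∧ (((k * (n - k) : ℕ) : ℤ) + c).toNat.Prime ∧
          (1 - η) * ((n : ℝ) ^ 2 / 4) ≤ (((((k * (n - k) : ℕ) : ℤ) + c).toNat : ℕ) : ℝ) := by
      rintro b h hb hnh ⟨m, m1, m2, m3⟩
      have hh : h0 + 1 ≤ h := by omega
      have hhr : (h0 : ℝ) + 1 ≤ h := by exact_mod_cast hh
      have h00 : (0 : ℝ) ≤ h0 := Nat.cast_nonneg _
      have hmr : (m : ℝ) ≤ h / 2 := by nlinarith
      have hmh : 2 * m ≤ h := by
        have : (2 : ℝ) * m ≤ h := by linarith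
        exact_mod_cast this
      have e1 : n - (h - m) = h + b + m := by omega
      have e2 : (((h - m) * (n - (h - m)) : ℕ) : ℤ) + c = c + (h : ℤ) * (h + b) - m * (m + b) := by
        rw [e1]
        push_cast [Nat.cast_sub (show m ≤ h by omega)]
        ring
      refine ⟨h - m, by omega, by omega, ?_, ?_⟩
      · rw [e2]; exact m3
      · rw [e2]
        have hcr : (-1 : ℝ) ≤ c := by
          rcases hc with h | h <;> rw [h] <;> norm_num
        have hpos : (0 : ℤ) ≤ c + (h : ℤ) * (h + b) - m * (m + b) := by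
          by_contra hneg
          push Not at hneg
          rw [Int.toNat_of_nonpos hneg.le] at m3
          exact Nat.not_prime_zero m3
        have e3 : (((c + (h : ℤ) * (h + b) - m * (m + b)).toNat : ℕ) : ℝ) = c + (h : ℝ) * (h + b) - m * (m + b) := by
          have h1 : (((c + (h : ℤ) * (h + b) - m * (m + b)).toNat : ℕ) : ℤ) = c + (h : ℤ) * (h + b) - m * (m + b) :=
            Int.toNat_of_nonneg hpos
          have h2 : ((((c + (h : ℤ) * (h + b) - m * (m + b)).toNat : ℕ) : ℤ) : ℝ) =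
            ((c + (h : ℤ) * (h + b) - m * (m + b) : ℤ) : ℝ) := by rw [h1]
          rw [Int.cast_natCast] at h2
          rw [h2]
          push_cast
          ring
        rw [e3, hnh]
        push_cast
        have hb0 : (0 : ℝ) ≤ (b : ℝ) := Nat.cast_nonneg _
        have hb1 : (b : ℝ) ≤ 1 := by exact_mod_cast hb
        have hm0 : (0 : ℝ) ≤ m := Nat.cast_nonneg _
        have hh00 : (0 : ℝ) ≤ h := Nat.cast_nonneg _
        -- `m (m + b) ≤ η1 h (h + b)`
        have e4 : (m : ℝ) * (m + b) ≤ η1 * (h * (h + b)) := by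
          have h1 : (m : ℝ) + b ≤ h + b := by linarith
          calc (m : ℝ) * (m + b) ≤ (η1 * h) * (h + b) := mul_le_mul m2 h1 (by linarith) (by positivity)
            _ = η1 * (h * (h + b)) := by ring
        obtain ⟨P, hP⟩ : ∃ P : ℝ, P = (h : ℝ) * (h + b) := ⟨_, rfl⟩
        have e5 : (2 * (h : ℝ) + b) ^ 2 / 4 = P + b ^ 2 / 4 := by rw [hP]; ring
        have e6 : (b : ℝ) ^ 2 / 4 ≤ 1 / 4 := by nlinarith
        have e6' : (0 : ℝ) ≤ (b : ℝ) ^ 2 / 4 := by positivity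
        rw [← hP] at e4 ⊢
        rw [e5]
        have e7 : (6 : ℝ) ≤ η * h := by
          have h1 : 6 / η ≤ h := hh0.trans (by linarith)
          rw [div_le_iff₀ hη] at h1
          linarith
        have e8 : (h : ℝ) ≤ P := by
          rw [hP]
          have : (1 : ℝ) ≤ h := by linarith
          nlinarith
        have e9 : (6 : ℝ) ≤ η * P := e7.trans (mul_le_mul_of_nonneg_left e8 hη.le)
        have e10 : η1 * P ≤ η / 2 * P := mul_le_mul_of_nonneg_right hη11 (by linarith)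
        nlinarith
    rcases Nat.even_or_odd' n with ⟨h, hh | hh⟩
    · refine key 0 h (by norm_num) (by omega) ?_
      refine a2 h (by rw [mem_Icc]; omega) (fun hcon => s1 ?_)
      rw [mem_image]
      exact ⟨h, hcon, hh.symm⟩
    · refine key 1 h le_rfl (by omega) ?_
      refine b2 h (by rw [mem_Icc]; omega) (fun hcon => s2 ?_)
      rw [mem_image]
      exact ⟨h, hcon, hh.symm⟩

end Pool.Agent.N728.QU
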